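import Pool.Agent.PDM.Stmts

/-!
# Module FIL of squad PDM: a new vertex in every face of a family
-/

set_option autoImplicit false

namespace Pool.Agent.PDM.H33

open Pool.Agent.PDN Pool.Agent.PDM

/-- the three darts of the face `(u, v, w)` -/
def Dr {V : Type} (u v w x y : V) : Prop :=
  (x = u ∧ y = v) ∨ (x = v ∧ y = w) ∨ (x = w ∧ y = u)

/-- the family without the face `(u, v, w)`, on `Option V` -/
def R1 {V : Type} (R : V → V → V → Prop) (u v w : V) : Option V → Option V → Option V → Prop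
  | some x, some y, some z => R x y z ∧ ¬ Dr u v w x y
  | _, _, _ => False

theorem r1_iff {V : Type} {R : V → V → V → Prop} {u v w : V} {a b c : Option V} :
    R1 R u v w a b c ↔ ∃ x y z, a = some x ∧ b = some y ∧ c = some z ∧ R x y z ∧
      ¬ Dr u v w x y := by
  rcases a with _ | a <;> rcases b with _ | b <;> rcases c with _ | c <;> simp [R1]

theorem r1_rot {V : Type} {T : Tri V} {R : V → V → V → Prop} {u v w : V}
    (hs : ∀ u v w, R u v w → T.f u v w) (hr : ∀ u v w, R u v w → R v w u) (h : R u v w)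
    (a b c : Option V) (hab : R1 R u v w a b c) : R1 R u v w b c a := by
  rw [r1_iff] at hab ⊢
  obtain ⟨x, y, z, rfl, rfl, rfl, hxy, hn⟩ := hab
  refine ⟨y, z, x, rfl, rfl, rfl, hr _ _ _ hxy, fun hd => hn ?_⟩
  have h1 := hs _ _ _ (hr _ _ _ hxy)
  have h2 := hs _ _ _ h
  have h3 := hs _ _ _ (hr _ _ _ h)
  have h4 := hs _ _ _ (hr _ _ _ (hr _ _ _ h))
  rcases hd with ⟨rfl, rfl⟩ | ⟨rfl, rfl⟩ | ⟨rfl, rfl⟩
  · exact Or.inr (Or.inr ⟨T.uniq h1 h2, rfl⟩)
  · exact Or.inl ⟨T.uniq h1 h3, rfl⟩
  · exact Or.inr (Or.inl ⟨T.uniq h1 h4, rfl⟩)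

theorem card_row {V : Type} {R : V → V → V → Prop} {u v w : V} (x : V) :
    Nat.card {a : Option V // ∃ b, R1 R u v w (some x) a b} =
      Nat.card {a : V // (∃ b, R x a b) ∧ ¬ Dr u v w x a} := by
  refine Nat.card_congr ⟨fun a => ⟨a.1.get ?_, ?_⟩, fun a => ⟨some a.1, ?_⟩, ?_, ?_⟩
  · obtain ⟨a, b, h⟩ := a
    rw [r1_iff] at h
    obtain ⟨x', y, z, -, rfl, -⟩ := h
    rfl
  · obtain ⟨a, b, h⟩ := a
    rw [r1_iff] at h
    obtain ⟨x', y, z, hx, rfl, rfl, h1, h2⟩ := h
    obtain rfl := Option.some.inj hx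
    exact ⟨⟨z, h1⟩, h2⟩
  · obtain ⟨a, ⟨b, h⟩, h2⟩ := a
    exact ⟨some b, h, h2⟩
  · intro a
    apply Subtype.ext
    simp
  · intro a
    apply Subtype.ext
    simp

theorem card_pairs {V : Type} {R : V → V → V → Prop} {u v w : V} :
    Nat.card {p : Option V × Option V // ∃ b, R1 R u v w p.1 p.2 b} =
      Nat.card {p : V × V // (∃ b, R p.1 p.2 b) ∧ ¬ Dr u v w p.1 p.2} := by
  have hs : ∀ p : {p : Option V × Option V // ∃ b, R1 R u v w p.1 p.2 b},
      p.1.1.isSome = true ∧ p.1.2.isSome = true := by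
    rintro ⟨⟨a, a'⟩, b, h⟩
    rw [r1_iff] at h
    obtain ⟨x', y, z, h1, h2, -⟩ := h
    simp only at h1 h2
    simp [h1, h2]
  refine Nat.card_congr ⟨fun p => ⟨(p.1.1.get (hs p).1, p.1.2.get (hs p).2), ?_⟩,
    fun p => ⟨(some p.1.1, some p.1.2), ?_⟩, ?_, ?_⟩
  · obtain ⟨⟨a, a'⟩, b, h⟩ := p
    rw [r1_iff] at h
    obtain ⟨x', y, z, h1, h2, rfl, h3, h4⟩ := h
    simp only at h1 h2
    subst h1
    subst h2
    exact ⟨⟨z, h3⟩, h4⟩
  · obtain ⟨⟨a, a'⟩, ⟨b, h⟩, h2⟩ := p
    exact ⟨some b, h, h2⟩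
  · rintro ⟨⟨a, a'⟩, h⟩
    apply Subtype.ext
    simp
  · rintro ⟨⟨a, a'⟩, h⟩
    apply Subtype.ext
    simp

theorem card_split {α : Type} [Finite α] (P Q : α → Prop) :
    Nat.card {a // P a} = Nat.card {a // P a ∧ ¬ Q a} + Nat.card {a // P a ∧ Q a} := by
  classical
  have := Fintype.ofFinite α
  rw [Nat.card_eq_fintype_card, Nat.card_eq_fintype_card, Nat.card_eq_fintype_card,
    Fintype.card_subtype, Fintype.card_subtype, Fintype.card_subtype, add_comm,
    ← Finset.filter_filter, ← Finset.filter_filter, Finset.card_filter_add_card_filter_not]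

theorem fil (hins : InsStmt) : FilStmt := by
  suffices H : ∀ (n : ℕ) (V : Type) [Fintype V] (T : Tri V) (R : V → V → V → Prop),
      Nat.card {p : V × V // ∃ w, R p.1 p.2 w} = n → T.graph.Connected →
      (∀ u v w, R u v w → T.f u v w) → (∀ u v w, R u v w → R v w u) →
      ∃ (W : Type) (_ : Fintype W) (T' : Tri W) (ι : V ↪ W), T'.graph.Connected ∧
        (∀ v, T'.deg (ι v) = T.deg v + Nat.card {a // ∃ b, R v a b}) ∧
        (∀ w, w ∉ Set.range ι → T'.deg w = 3) ∧
        3 * Nat.card W = 3 * Nat.card V + Nat.card {p : V × V // ∃ w, R p.1 p.2 w} by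
    intro V _ T R hc hs hr
    exact H _ V T R rfl hc hs hr
  intro n
  induction n using Nat.strong_induction_on with
  | _ n ih =>
    intro V _ T R hn hc hs hr
    by_cases hR : ∃ u v w, R u v w
    · obtain ⟨u, v, w, h⟩ := hR
      have h2 := hr _ _ _ h
      have h3 := hr _ _ _ h2
      have huv : u ≠ v := T.ne (hs _ _ _ h)
      have hvw : v ≠ w := T.ne (hs _ _ _ h2)
      have hwu : w ≠ u := T.ne (hs _ _ _ h3)
      obtain ⟨T1, hf, -, -, -, hd, hdu, hdv, hdw, hd0, hc1⟩ := hins V T u v w (hs _ _ _ h)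
      classical
      -- the number of the darts
      have hp : Nat.card {p : V × V // ∃ b, R p.1 p.2 b} =
          Nat.card {p : Option V × Option V // ∃ b, R1 R u v w p.1 p.2 b} + 3 := by
        rw [card_pairs, card_split (fun p : V × V => ∃ b, R p.1 p.2 b)
          (fun p => Dr u v w p.1 p.2)]
        congr 1
        have he : {p : V × V | (∃ b, R p.1 p.2 b) ∧ Dr u v w p.1 p.2} =
            (({(u, v), (v, w), (w, u)} : Finset (V × V)) : Set (V × V)) := by
          ext ⟨x, y⟩
          simp only [Set.mem_ofPred_eq, Dr, Finset.coe_insert, Finset.coe_singleton,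
            Set.mem_insert_iff, Set.mem_singleton_iff, Prod.mk.injEq]
          constructor
          · exact fun h => h.2
          · rintro (⟨rfl, rfl⟩ | ⟨rfl, rfl⟩ | ⟨rfl, rfl⟩)
            · exact ⟨⟨w, h⟩, Or.inl ⟨rfl, rfl⟩⟩
            · exact ⟨⟨u, h2⟩, Or.inr (Or.inl ⟨rfl, rfl⟩)⟩
            · exact ⟨⟨v, h3⟩, Or.inr (Or.inr ⟨rfl, rfl⟩)⟩
        have he2 : Nat.card {p : V × V // (∃ b, R p.1 p.2 b) ∧ Dr u v w p.1 p.2} =
            Set.ncard {p : V × V | (∃ b, R p.1 p.2 b) ∧ Dr u v w p.1 p.2} := rfl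
        rw [he2, he, Set.ncard_coe_finset, Finset.card_insert_of_notMem,
          Finset.card_insert_of_notMem, Finset.card_singleton]
        · simp only [Finset.mem_singleton, Prod.mk.injEq]
          exact fun h => hvw h.1
        · simp only [Finset.mem_insert, Finset.mem_singleton, Prod.mk.injEq]
          rintro (h | h)
          · exact huv h.1
          · exact huv h.2.symm
      -- the number of the neighbours
      have hq : ∀ x, Nat.card {a // ∃ b, R x a b} =
          Nat.card {a : Option V // ∃ b, R1 R u v w (some x) a b} +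
            (if x = u ∨ x = v ∨ x = w then 1 else 0) := by
        intro x
        rw [card_row, card_split (fun a => ∃ b, R x a b) (fun a => Dr u v w x a)]
        congr 1
        by_cases hx : x = u ∨ x = v ∨ x = w
        · rw [if_pos hx]
          rcases hx with rfl | rfl | rfl
          · refine Nat.card_eq_one_iff_exists.2 ⟨⟨v, ⟨w, h⟩, Or.inl ⟨rfl, rfl⟩⟩, ?_⟩
            rintro ⟨a, -, (⟨-, rfl⟩ | ⟨h', -⟩ | ⟨h', -⟩)⟩
            · rfl
            · exact absurd h' huv
            · exact absurd h'.symm hwu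
          · refine Nat.card_eq_one_iff_exists.2 ⟨⟨w, ⟨u, h2⟩, Or.inr (Or.inl ⟨rfl, rfl⟩)⟩, ?_⟩
            rintro ⟨a, -, (⟨h', -⟩ | ⟨-, rfl⟩ | ⟨h', -⟩)⟩
            · exact absurd h'.symm huv
            · rfl
            · exact absurd h' hvw
          · refine Nat.card_eq_one_iff_exists.2 ⟨⟨u, ⟨v, h3⟩, Or.inr (Or.inr ⟨rfl, rfl⟩)⟩, ?_⟩
            rintro ⟨a, -, (⟨h', -⟩ | ⟨h', -⟩ | ⟨-, rfl⟩)⟩
            · exact absurd h' hwu
            · exact absurd h'.symm hvw
            · rfl
        · rw [if_neg hx]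
          have : IsEmpty {a // (∃ b, R x a b) ∧ Dr u v w x a} := by
            refine ⟨?_⟩
            rintro ⟨a, -, (⟨h', -⟩ | ⟨h', -⟩ | ⟨h', -⟩)⟩
            · exact hx (Or.inl h')
            · exact hx (Or.inr (Or.inl h'))
            · exact hx (Or.inr (Or.inr h'))
          exact Nat.card_of_isEmpty
      have hs1 : ∀ a b c, R1 R u v w a b c → T1.f a b c := by
        intro a b c hab
        rw [r1_iff] at hab
        obtain ⟨x, y, z, rfl, rfl, rfl, hxy, hnd⟩ := hab
        exact hf _ _ _ (hs _ _ _ hxy) hnd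
      obtain ⟨W, iW, T', ι, hc', hdeg, hnew, hcard⟩ := ih
        (Nat.card {p : Option V × Option V // ∃ b, R1 R u v w p.1 p.2 b}) (by omega)
        (Option V) T1 (R1 R u v w) rfl (hc1 hc) hs1
        (fun a b c hab => r1_rot hs hr h a b c hab)
      refine ⟨W, iW, T', Function.Embedding.some.trans ι, hc', ?_, ?_, ?_⟩
      · intro x
        show T'.deg (ι (some x)) = _
        rw [hdeg, hq x]
        by_cases hxu : x = u
        · subst hxu
          rw [hdu, if_pos (Or.inl rfl)]
          omega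
        · by_cases hxv : x = v
          · subst hxv
            rw [hdv, if_pos (Or.inr (Or.inl rfl))]
            omega
          · by_cases hxw : x = w
            · subst hxw
              rw [hdw, if_pos (Or.inr (Or.inr rfl))]
              omega
            · rw [hd x hxu hxv hxw, if_neg (by tauto)]
              omega
      · intro y hy
        by_cases hy' : y ∈ Set.range ι
        · obtain ⟨a, rfl⟩ := hy'
          rcases a with _ | a
          · rw [hdeg, hd0]
            have : IsEmpty {a : Option V // ∃ b, R1 R u v w none a b} := by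
              refine ⟨?_⟩
              rintro ⟨a, b, hab⟩
              exact hab
            rw [Nat.card_of_isEmpty]
          · exact absurd ⟨a, rfl⟩ hy
        · exact hnew y hy'
      · rw [hcard, Finite.card_option]
        omega
    · have h0 : ∀ u v w, ¬ R u v w := fun u v w h => hR ⟨u, v, w, h⟩
      refine ⟨V, inferInstance, T, Function.Embedding.refl V, hc, ?_, ?_, ?_⟩
      · intro x
        have : IsEmpty {a // ∃ b, R x a b} := ⟨fun a => by
          obtain ⟨a, b, h⟩ := a
          exact h0 _ _ _ h⟩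
        rw [Nat.card_of_isEmpty]
        rfl
      · intro x hx
        exact absurd ⟨x, rfl⟩ hx
      · have : IsEmpty {p : V × V // ∃ w, R p.1 p.2 w} := ⟨fun a => by
          obtain ⟨a, b, h⟩ := a
          exact h0 _ _ _ h⟩
        have e : Nat.card {p : V × V // ∃ w, R p.1 p.2 w} = 0 := Nat.card_of_isEmpty
        omega

end Pool.Agent.PDM.H33
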